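import Mathlib

/-!
# Vertex-transitive graphs with at most four vertices
-/

namespace Pool.Agent.N994.PF

variable {X : Type*} [Fintype X] [DecidableEq X]

theorem four (hX : Fintype.card X ≤ 4) {x y z w : X} (h1 : x ≠ y) (h2 : x ≠ z) (h3 : x ≠ w)
    (h4 : y ≠ z) (h5 : y ≠ w) (h6 : z ≠ w) (p : X) : p = x ∨ p = y ∨ p = z ∨ p = w := by
  by_contra hcon
  push Not at hcon
  obtain ⟨a1, a2, a3, a4⟩ := hcon
  have h : ({p, x, y, z, w} : Finset X).card = 5 := by
    rw [Finset.card_insert_of_notMem, Finset.card_insert_of_notMem,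
      Finset.card_insert_of_notMem, Finset.card_insert_of_notMem, Finset.card_singleton]
    all_goals simp only [Finset.mem_insert, Finset.mem_singleton, not_or]
    · exact h6
    · exact ⟨h4, h5⟩
    · exact ⟨h1, h2, h3⟩
    · exact ⟨a1, a2, a3, a4⟩
  have h' := Finset.card_le_univ ({p, x, y, z, w} : Finset X)
  omega

/-- The graph has a Hamiltonian path (possibly degenerate) or is a matching. -/
theorem comb (hX : Fintype.card X ≤ 4) (E : X → X → Prop) (hs : ∀ a b, E a b → E b a)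
    (hi : ∀ a, ¬ E a a) (ht : ∀ p, ∃ q, E p q)
    (hh : ∀ p p', ∃ f : X → X, Function.Injective f ∧ f p = p' ∧ ∀ a b, E a b → E (f a) (f b)) :
    (∃ x y z w, E x y ∧ E y z ∧ E z w ∧ ∀ p, p = x ∨ p = y ∨ p = z ∨ p = w) ∨
    (∃ p q p' q', E p q ∧ E p' q' ∧
      ∀ a b, E a b → (a = p ∧ b = q) ∨ (a = q ∧ b = p) ∨ (a = p' ∧ b = q') ∨
        (a = q' ∧ b = p')) ∨ IsEmpty X := by
  have hne : ∀ {a b}, E a b → a ≠ b := by
    rintro a b h rfl
    exact hi a h
  by_cases h2 : ∃ x y z, E x y ∧ E y z ∧ x ≠ z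
  · left
    obtain ⟨x, y, z, hxy, hyz, hxz⟩ := h2
    -- every vertex has two partners
    obtain ⟨w, hzw, hwy⟩ : ∃ w, E z w ∧ w ≠ y := by
      obtain ⟨f, hf, hfy, hE⟩ := hh y z
      have e1 := hE _ _ (hs _ _ hxy)
      have e2 := hE _ _ hyz
      rw [hfy] at e1 e2
      by_cases h : f x = y
      · refine ⟨f z, e2, fun h' => hxz (hf (h.trans h'.symm))⟩
      · exact ⟨f x, e1, h⟩
    by_cases hwx : w = x
    · subst hwx
      by_cases hall : ∀ p, p = w ∨ p = y ∨ p = z
      · refine ⟨w, y, z, w, hxy, hyz, hzw, fun p => ?_⟩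
        rcases hall p with h | h | h
        · exact Or.inl h
        · exact Or.inr (Or.inl h)
        · exact Or.inr (Or.inr (Or.inl h))
      · push Not at hall
        obtain ⟨t, ht1, ht2, ht3⟩ := hall
        have h4 := four hX hxz.symm (hne hyz).symm (Ne.symm ht3) (hne hxy) (Ne.symm ht1)
          (Ne.symm ht2)
        obtain ⟨s, hts⟩ := ht t
        rcases h4 s with h | h | h | h
        · subst h
          refine ⟨w, y, s, t, hxy, hyz, hs _ _ hts, fun p => ?_⟩
          have := h4 p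
          tauto
        · subst h
          refine ⟨y, z, s, t, hyz, hzw, hs _ _ hts, fun p => ?_⟩
          have := h4 p
          tauto
        · subst h
          refine ⟨z, w, s, t, hzw, hxy, hs _ _ hts, fun p => ?_⟩
          have := h4 p
          tauto
        · subst h
          exact absurd hts (hi _)
    · exact ⟨x, y, z, w, hxy, hyz, hzw, four hX (hne hxy) hxz (Ne.symm hwx) (hne hyz)
        (Ne.symm hwy) (hne hzw)⟩
  · right
    push Not at h2
    by_cases hem : IsEmpty X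
    · exact Or.inr hem
    left
    rw [not_isEmpty_iff] at hem
    obtain ⟨p⟩ := hem
    obtain ⟨q, hpq⟩ := ht p
    by_cases hall : ∀ r, r = p ∨ r = q
    · refine ⟨p, q, p, q, hpq, hpq, fun a b hab => ?_⟩
      rcases hall a with rfl | rfl
      · exact Or.inl ⟨rfl, (h2 _ _ _ (hs _ _ hpq) hab).symm⟩
      · exact Or.inr (Or.inl ⟨rfl, (h2 _ _ _ hpq hab).symm⟩)
    · push Not at hall
      obtain ⟨p', hp1, hp2⟩ := hall
      obtain ⟨q', hpq'⟩ := ht p'
      have hq1 : q' ≠ p := by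
        rintro rfl
        exact hp2 (h2 _ _ _ hpq' hpq)
      have hq2 : q' ≠ q := by
        rintro rfl
        exact hp1 (h2 _ _ _ hpq' (hs _ _ hpq))
      have h4 := four hX (hne hpq) hp1.symm hq1.symm hp2.symm hq2.symm (hne hpq')
      refine ⟨p, q, p', q', hpq, hpq', fun a b hab => ?_⟩
      rcases h4 a with rfl | rfl | rfl | rfl
      · exact Or.inl ⟨rfl, (h2 _ _ _ (hs _ _ hpq) hab).symm⟩
      · exact Or.inr (Or.inl ⟨rfl, (h2 _ _ _ hpq hab).symm⟩)
      · exact Or.inr (Or.inr (Or.inl ⟨rfl, (h2 _ _ _ (hs _ _ hpq') hab).symm⟩))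
      · exact Or.inr (Or.inr (Or.inr ⟨rfl, (h2 _ _ _ hpq' hab).symm⟩))

end Pool.Agent.N994.PF
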