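import Mathlib
import Pool.Agent.Y4.K.Loc
import Pool.Agent.Y4.Aut

/-!
# The eigenspaces of the conjugates of the Hodge operator of a period matrix over a number field
-/

set_option linter.unusedSectionVars false

namespace Pool.Agent.N994.PF

open Matrix Module Pool.Agent.W437.HC Pool.Agent.Y4 Pool.Agent.Y4.G Pool.Agent.Y4.K

variable {g : ℕ} {Z : Matrix (Fin g) (Fin g) ℂ}

theorem vecL_av (σ : ℂ ≃+* ℂ) (A : Matrix (Fin g) (Fin g) ℂ) (b : Fin g → ℂ) :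
    vecL (A.map (σ : ℂ →+* ℂ)) b = av σ (vecL A (fun i => σ.symm (b i))) := by
  funext i
  rcases i with i | i
  · simp only [vecL, av, Sum.elim_inl, Pi.neg_apply, mulVec, dotProduct, map_neg, map_sum,
      map_mul, RingEquiv.apply_symm_apply, Matrix.map_apply]
    rfl
  · simp [vecL, av]

theorem Dσ_vecL (M : Pol Z) (σ : ℂ ≃+* ℂ) (b : Fin g → ℂ) :
    (DZ Z).map (σ : ℂ →+* ℂ) *ᵥ vecL (Z.map (σ : ℂ →+* ℂ)) b =
      -vecL (Z.map (σ : ℂ →+* ℂ)) b := by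
  rw [vecL_av, ← av_mulVec, DZ_vecL M.isUnit]
  funext i
  simp [av]

theorem Dσ_vecL_bar (M : Pol Z) (σ : ℂ ≃+* ℂ) (b : Fin g → ℂ) :
    (DZ Z).map (σ : ℂ →+* ℂ) *ᵥ vecL ((Z.map (starRingEnd ℂ)).map (σ : ℂ →+* ℂ)) b =
      vecL ((Z.map (starRingEnd ℂ)).map (σ : ℂ →+* ℂ)) b := by
  rw [vecL_av, ← av_mulVec, DZ_vecL_bar M.isUnit]

theorem isUnit_aut (M : Pol Z) (σ : ℂ ≃+* ℂ) :
    IsUnit ((Z.map (starRingEnd ℂ)).map (σ : ℂ →+* ℂ) - Z.map (σ : ℂ →+* ℂ)).det := by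
  have h1 : (Z.map (starRingEnd ℂ)).map (σ : ℂ →+* ℂ) - Z.map (σ : ℂ →+* ℂ) =
      (Z.map (starRingEnd ℂ) - Z).map (σ : ℂ →+* ℂ) := by
    ext i j
    simp
  rw [h1]
  have h2 := (isUnit_bar_sub M.isUnit).map (σ : ℂ →+* ℂ)
  rw [RingHom.map_det] at h2
  exact h2

/-- The embedding of a field of definition given by an automorphism of the complex numbers. -/
noncomputable def rs (k : IntermediateField ℚ ℂ) (σ : ℂ ≃+* ℂ) : k →+* ℂ := (σ : ℂ →+* ℂ).comp (algebraMap k ℂ)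

/-- The period matrix over the field of definition. -/
def Zk (k : IntermediateField ℚ ℂ) (hZ : ∀ i j, Z i j ∈ k) : Matrix (Fin g) (Fin g) k :=
  fun i j => ⟨Z i j, hZ i j⟩

variable {k : IntermediateField ℚ ℂ} {A : Matrix (Fin g) (Fin g) k}

/-- The conjugate Lagrangian subspaces. -/
def InL (A : Matrix (Fin g) (Fin g) k) (τ : k →+* ℂ) (u : Fin g ⊕ Fin g → ℂ) : Prop :=
  ∃ b, u = vecL (A.map τ) b

theorem map_rs (hZ : ∀ i j, Z i j ∈ k) (σ : ℂ ≃+* ℂ) :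
    (Zk k hZ).map (rs k σ) = Z.map (σ : ℂ →+* ℂ) := by
  ext i j
  rfl

theorem map_rs_conj (hZ : ∀ i j, Z i j ∈ k) (σ : ℂ ≃+* ℂ) :
    (Zk k hZ).map (rs k (conjEq.trans σ)) = (Z.map (starRingEnd ℂ)).map (σ : ℂ →+* ℂ) := by
  ext i j
  rfl

theorem eig_neg (M : Pol Z) (hZ : ∀ i j, Z i j ∈ k) (σ : ℂ ≃+* ℂ) (u : Fin g ⊕ Fin g → ℂ) :
    (DZ Z).map (σ : ℂ →+* ℂ) *ᵥ u = -u ↔ InL (Zk k hZ) (rs k σ) u := by
  constructor
  · intro h
    obtain ⟨b, b', hb⟩ := exists_decomp _ _ (isUnit_aut M σ) u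
    rw [hb, mulVec_add, Dσ_vecL M, Dσ_vecL_bar M, neg_add, add_right_inj] at h
    have h1 : vecL ((Z.map (starRingEnd ℂ)).map (σ : ℂ →+* ℂ)) b' = 0 := by
      have h2 : (2 : ℂ) • vecL ((Z.map (starRingEnd ℂ)).map (σ : ℂ →+* ℂ)) b' = 0 := by
        rw [two_smul]
        nth_rewrite 1 [h]
        exact neg_add_cancel _
      exact (smul_eq_zero.1 h2).resolve_left two_ne_zero
    refine ⟨b, ?_⟩
    rw [hb, h1, add_zero, map_rs]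
  · rintro ⟨b, rfl⟩
    rw [map_rs, Dσ_vecL M]

theorem eig_pos (M : Pol Z) (hZ : ∀ i j, Z i j ∈ k) (σ : ℂ ≃+* ℂ) (u : Fin g ⊕ Fin g → ℂ) :
    (DZ Z).map (σ : ℂ →+* ℂ) *ᵥ u = u ↔ InL (Zk k hZ) (rs k (conjEq.trans σ)) u := by
  constructor
  · intro h
    obtain ⟨b, b', hb⟩ := exists_decomp _ _ (isUnit_aut M σ) u
    rw [hb, mulVec_add, Dσ_vecL M, Dσ_vecL_bar M, add_left_inj] at h
    have h1 : vecL (Z.map (σ : ℂ →+* ℂ)) b = 0 := by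
      have h2 : (2 : ℂ) • vecL (Z.map (σ : ℂ →+* ℂ)) b = 0 := by
        rw [two_smul]
        nth_rewrite 1 [← h]
        exact neg_add_cancel _
      exact (smul_eq_zero.1 h2).resolve_left two_ne_zero
    refine ⟨b', ?_⟩
    rw [hb, h1, zero_add, map_rs_conj]
  · rintro ⟨b, rfl⟩
    rw [map_rs_conj, Dσ_vecL_bar M]

/-- The embeddings that are linked. -/
def Ed (k : IntermediateField ℚ ℂ) (p q : k →+* ℂ) : Prop :=
  ∃ σ : ℂ ≃+* ℂ, rs k σ = p ∧ rs k (conjEq.trans σ) = q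

theorem Ed.symm {p q : k →+* ℂ} (h : Ed k p q) : Ed k q p := by
  obtain ⟨σ, h1, h2⟩ := h
  refine ⟨conjEq.trans σ, h2, ?_⟩
  rw [← h1]
  ext x
  simp [rs, conjEq_apply]

theorem Ed.comp {p q : k →+* ℂ} (h : Ed k p q) (ρ : ℂ ≃+* ℂ) :
    Ed k ((ρ : ℂ →+* ℂ).comp p) ((ρ : ℂ →+* ℂ).comp q) := by
  obtain ⟨σ, h1, h2⟩ := h
  refine ⟨σ.trans ρ, ?_, ?_⟩
  · rw [← h1]
    ext x
    rfl
  · rw [← h2]
    ext x
    rfl

end Pool.Agent.N994.PF
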