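import Mathlib

/-!
# Irreducible systems of at most four subspaces, linked by a path or a matching
-/

namespace Pool.Agent.N994.PF

open Module

set_option linter.unusedSectionVars false

variable {V X : Type*} [AddCommGroup V] [Module ℂ V] [FiniteDimensional ℂ V]

/-- A system of subspaces of `M`, with the projectors given by the edges of a graph. -/
structure Sys (E : X → X → Prop) (L : X → Submodule ℂ V) (M : Submodule ℂ V)
    (P : X → X → V →ₗ[ℂ] V) : Prop where
  symm : ∀ p q, E p q → E q p
  irr : ∀ p, ¬ E p p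
  le : ∀ p, L p ≤ M
  ne : M ≠ ⊥
  mem : ∀ p q, E p q → ∀ v ∈ M, P p q v ∈ L q
  sub : ∀ p q, E p q → ∀ v ∈ M, v - P p q v ∈ L p
  fix : ∀ p q, E p q → ∀ v ∈ L q, P p q v = v
  ker : ∀ p q, E p q → ∀ v ∈ L p, P p q v = 0
  min : ∀ N ≤ M, (∀ p q, E p q → ∀ v ∈ N, P p q v ∈ N) → N = ⊥ ∨ N = M

/-- The reflection given by a projector. -/
def rf (T : V →ₗ[ℂ] V) : V →ₗ[ℂ] V := (2 : ℂ) • T - LinearMap.id

theorem rf_apply (T : V →ₗ[ℂ] V) (u : V) : rf T u = (2 : ℂ) • T u - u := rfl

theorem exists_eigv (T : V →ₗ[ℂ] V) (W : Submodule ℂ V) (hW : ∀ w ∈ W, T w ∈ W) (hne : W ≠ ⊥) :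
    ∃ v ∈ W, v ≠ 0 ∧ ∃ c : ℂ, T v = c • v := by
  have : Nontrivial W := Submodule.nontrivial_iff_ne_bot.2 hne
  obtain ⟨c, hc⟩ := Module.End.exists_eigenvalue (T.restrict hW)
  obtain ⟨v, hv⟩ := hc.exists_hasEigenvector
  refine ⟨v, v.2, fun h => hv.2 (Subtype.ext h), c, ?_⟩
  have h1 := congrArg Subtype.val hv.apply_eq_smul
  simpa using h1

theorem finrank_pair_le (v v' : V) : finrank ℂ (Submodule.span ℂ {v, v'}) ≤ 2 := by
  classical
  have h := finrank_span_finset_le_card (R := ℂ) ({v, v'} : Finset V)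
  rw [Finset.coe_pair] at h
  exact h.trans Finset.card_le_two

theorem finrank_single_le {v v' : V} (h : v' ∈ Submodule.span ℂ {v}) :
    finrank ℂ (Submodule.span ℂ {v, v'}) ≤ 1 := by
  classical
  have h1 : Submodule.span ℂ {v, v'} ≤ Submodule.span ℂ {v} := by
    rw [Submodule.span_le]
    rintro x (rfl | hx)
    · exact Submodule.mem_span_singleton_self x
    · rw [Set.mem_singleton_iff.1 hx]
      exact h
  refine (Submodule.finrank_mono h1).trans ?_
  have h2 := finrank_span_finset_le_card (R := ℂ) ({v} : Finset V)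
  rw [Finset.coe_singleton] at h2
  exact h2

theorem stab_pair {T : V →ₗ[ℂ] V} {v v' : V} (h1 : T v ∈ Submodule.span ℂ {v, v'})
    (h2 : T v' ∈ Submodule.span ℂ {v, v'}) :
    ∀ u ∈ Submodule.span ℂ {v, v'}, T u ∈ Submodule.span ℂ {v, v'} := by
  intro u hu
  obtain ⟨a, b, rfl⟩ := Submodule.mem_span_pair.1 hu
  rw [map_add, map_smul, map_smul]
  exact Submodule.add_mem _ (Submodule.smul_mem _ _ h1) (Submodule.smul_mem _ _ h2)

namespace Sys

variable {E : X → X → Prop} {L : X → Submodule ℂ V} {M : Submodule ℂ V}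
  {P : X → X → V →ₗ[ℂ] V} (S : Sys E L M P)
include S

theorem disj {p q : X} (h : E p q) {v : V} (h1 : v ∈ L p) (h2 : v ∈ L q) : v = 0 := by
  rw [← S.fix p q h v h2, S.ker p q h v h1]

theorem eq_top {p q : X} (h : E p q) (h1 : L p = ⊥) : L q = M := by
  refine le_antisymm (S.le q) fun v hv => ?_
  have h2 := S.sub p q h v hv
  rw [h1, Submodule.mem_bot, sub_eq_zero] at h2
  rw [h2]
  exact S.mem p q h v hv

theorem not_both {p q : X} (h : E p q) (h1 : L p = M) (h2 : L q = M) : False := by
  apply S.ne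
  rw [Submodule.eq_bot_iff]
  intro v hv
  exact S.disj h (by rwa [h1]) (by rwa [h2])

/-- The path case, with an eigenvector. -/
theorem path_aux {x y z w : X} (hyz : E y z) (hcov : ∀ p, p = x ∨ p = y ∨ p = z ∨ p = w)
    {v v' : V} {c : ℂ} (hv : v ≠ 0) (hz : v ∈ L z) (hy : v' ∈ L y) (hx : v - v' ∈ L x)
    (hw : v' - c • v ∈ L w) (hc : E y w → E x z ∨ c ≠ 0) :
    finrank ℂ M ≤ 2 ∧ ∀ r, L r = ⊥ → finrank ℂ M ≤ 1 := by
  have hvN : v ∈ Submodule.span ℂ {v, v'} := Submodule.subset_span (by simp)
  have hvN' : v' ∈ Submodule.span ℂ {v, v'} := Submodule.subset_span (by simp)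
  have h1 : E x w → c ≠ 1 := by
    rintro h rfl
    apply hv
    rw [one_smul, ← neg_sub] at hw
    have h2 := S.disj h hx (by simpa using (L w).neg_mem hw)
    rw [sub_eq_zero] at h2
    exact S.disj hyz (by rwa [h2]) hz
  have h0 : E y w → c ≠ 0 := by
    intro h
    rcases hc h with h' | h'
    · rintro rfl
      apply hv
      rw [zero_smul, sub_zero] at hw
      have h2 := S.disj h hy hw
      rw [h2, sub_zero] at hx
      exact S.disj h' hx hz
    · exact h'
  have hN : Submodule.span ℂ {v, v'} = M := by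
    have hle : Submodule.span ℂ {v, v'} ≤ M := by
      rw [Submodule.span_le]
      rintro u (rfl | hu)
      · exact S.le z hz
      · rw [Set.mem_singleton_iff.1 hu]
        exact S.le y hy
    refine (S.min _ hle ?_).resolve_left ?_
    · -- it is enough to treat one orientation of each edge
      have key : ∀ p q, E p q → (∀ u ∈ Submodule.span ℂ {v, v'},
          P p q u ∈ Submodule.span ℂ {v, v'}) → ∀ u ∈ Submodule.span ℂ {v, v'},
          P q p u ∈ Submodule.span ℂ {v, v'} := by
        intro p q hpq hst u hu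
        have e1 : P q p u = u - P p q u := by
          have e2 := S.sub p q hpq u (hle hu)
          have e3 := S.mem p q hpq u (hle hu)
          calc P q p u = P q p ((u - P p q u) + P p q u) := by rw [sub_add_cancel]
          _ = u - P p q u := by
            rw [map_add, S.fix q p (S.symm _ _ hpq) _ e2, S.ker q p (S.symm _ _ hpq) _ e3,
              add_zero]
        rw [e1]
        exact Submodule.sub_mem _ hu (hst u hu)
      have cxy : ∀ u ∈ Submodule.span ℂ {v, v'}, E x y → P x y u ∈ Submodule.span ℂ {v, v'} := by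
        intro u hu h
        have e1 : P x y v' = v' := S.fix x y h _ hy
        have e2 : P x y v = v' := by
          have e3 := S.ker x y h _ hx
          rw [map_sub, e1, sub_eq_zero] at e3
          exact e3
        exact stab_pair (by rw [e2]; exact hvN') (by rw [e1]; exact hvN') u hu
      have cxz : ∀ u ∈ Submodule.span ℂ {v, v'}, E x z → P x z u ∈ Submodule.span ℂ {v, v'} := by
        intro u hu h
        have e1 : P x z v = v := S.fix x z h _ hz
        have e2 : P x z v' = v := by
          have e3 := S.ker x z h _ hx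
          rw [map_sub, e1, sub_eq_zero] at e3
          exact e3.symm
        exact stab_pair (by rw [e1]; exact hvN) (by rw [e2]; exact hvN) u hu
      have cxw : ∀ u ∈ Submodule.span ℂ {v, v'}, E x w → P x w u ∈ Submodule.span ℂ {v, v'} := by
        intro u hu h
        have e1 : P x w (v' - c • v) = v' - c • v := S.fix x w h _ hw
        have e3 : P x w v = P x w v' := by
          have e4 := S.ker x w h _ hx
          rw [map_sub, sub_eq_zero] at e4
          exact e4
        have e4 : P x w v = (1 - c)⁻¹ • (v' - c • v) := by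
          have h2 : (1 - c) ≠ 0 := sub_ne_zero.2 (h1 h).symm
          rw [eq_inv_smul_iff₀ h2, ← e1, map_sub, map_smul, ← e3, sub_smul, one_smul]
        have e5 : P x w v ∈ Submodule.span ℂ {v, v'} := by
          rw [e4]
          exact Submodule.smul_mem _ _ (Submodule.sub_mem _ hvN' (Submodule.smul_mem _ _ hvN))
        exact stab_pair e5 (by rw [← e3]; exact e5) u hu
      have cyz : ∀ u ∈ Submodule.span ℂ {v, v'}, E y z → P y z u ∈ Submodule.span ℂ {v, v'} := by
        intro u hu h
        have e1 : P y z v = v := S.fix y z h _ hz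
        have e2 : P y z v' = 0 := S.ker y z h _ hy
        exact stab_pair (by rw [e1]; exact hvN) (by rw [e2]; exact Submodule.zero_mem _) u hu
      have cyw : ∀ u ∈ Submodule.span ℂ {v, v'}, E y w → P y w u ∈ Submodule.span ℂ {v, v'} := by
        intro u hu h
        have e1 : P y w (v' - c • v) = v' - c • v := S.fix y w h _ hw
        have e2 : P y w v' = 0 := S.ker y w h _ hy
        have e4 : P y w v = (-c)⁻¹ • (v' - c • v) := by
          have h2 : (-c) ≠ 0 := neg_ne_zero.2 (h0 h)
          rw [eq_inv_smul_iff₀ h2, ← e1, map_sub, map_smul, e2, zero_sub, neg_smul]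
        have e5 : P y w v ∈ Submodule.span ℂ {v, v'} := by
          rw [e4]
          exact Submodule.smul_mem _ _ (Submodule.sub_mem _ hvN' (Submodule.smul_mem _ _ hvN))
        exact stab_pair e5 (by rw [e2]; exact Submodule.zero_mem _) u hu
      have czw : ∀ u ∈ Submodule.span ℂ {v, v'}, E z w → P z w u ∈ Submodule.span ℂ {v, v'} := by
        intro u hu h
        have e1 : P z w (v' - c • v) = v' - c • v := S.fix z w h _ hw
        have e2 : P z w v = 0 := S.ker z w h _ hz
        have e5 : P z w v' ∈ Submodule.span ℂ {v, v'} := by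
          rw [map_sub, map_smul, e2, smul_zero, sub_zero] at e1
          rw [e1]
          exact Submodule.sub_mem _ hvN' (Submodule.smul_mem _ _ hvN)
        exact stab_pair (by rw [e2]; exact Submodule.zero_mem _) e5 u hu
      intro p q hpq
      rcases hcov p with hp | hp | hp | hp <;> rcases hcov q with hq | hq | hq | hq <;>
        subst hp <;> subst hq
      any_goals exact absurd hpq (S.irr _)
      · exact fun u hu => cxy u hu hpq
      · exact fun u hu => cxz u hu hpq
      · exact fun u hu => cxw u hu hpq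
      · exact key _ _ (S.symm _ _ hpq) fun u hu => cxy u hu (S.symm _ _ hpq)
      · exact fun u hu => cyz u hu hpq
      · exact fun u hu => cyw u hu hpq
      · exact key _ _ (S.symm _ _ hpq) fun u hu => cxz u hu (S.symm _ _ hpq)
      · exact key _ _ (S.symm _ _ hpq) fun u hu => cyz u hu (S.symm _ _ hpq)
      · exact fun u hu => czw u hu hpq
      · exact key _ _ (S.symm _ _ hpq) fun u hu => cxw u hu (S.symm _ _ hpq)
      · exact key _ _ (S.symm _ _ hpq) fun u hu => cyw u hu (S.symm _ _ hpq)
      · exact key _ _ (S.symm _ _ hpq) fun u hu => czw u hu (S.symm _ _ hpq)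
    · intro h
      apply hv
      rw [h] at hvN
      exact (Submodule.mem_bot ℂ).1 hvN
  refine ⟨?_, fun r hr => ?_⟩
  · rw [← hN]
    exact finrank_pair_le v v'
  · rw [← hN]
    apply finrank_single_le
    rcases hcov r with rfl | rfl | rfl | rfl
    · rw [hr, Submodule.mem_bot, sub_eq_zero] at hx
      rw [← hx]
      exact Submodule.mem_span_singleton_self v
    · rw [hr, Submodule.mem_bot] at hy
      rw [hy]
      exact Submodule.zero_mem _
    · rw [hr, Submodule.mem_bot] at hz
      exact absurd hz hv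
    · rw [hr, Submodule.mem_bot, sub_eq_zero] at hw
      rw [hw]
      exact Submodule.smul_mem _ _ (Submodule.mem_span_singleton_self v)

/-- An eigenvector for a path. -/
theorem path_fwd {x y z w : X} (hxy : E x y) (hyz : E y z) (hzw : E z w)
    (hcov : ∀ p, p = x ∨ p = y ∨ p = z ∨ p = w) (hz : L z ≠ ⊥) (hc : E y w → E x z) :
    finrank ℂ M ≤ 2 ∧ ∀ r, L r = ⊥ → finrank ℂ M ≤ 1 := by
  have hwz := S.symm _ _ hzw
  obtain ⟨v, hv, hv0, c, hvc⟩ := exists_eigv ((P w z).comp (P x y)) (L z) (fun u hu => by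
    rw [LinearMap.comp_apply]
    exact S.mem w z hwz _ (S.le y (S.mem x y hxy u (S.le z hu)))) hz
  rw [LinearMap.comp_apply] at hvc
  have h1 := S.mem x y hxy v (S.le z hv)
  have h2 := S.sub x y hxy v (S.le z hv)
  have h3 := S.sub w z hwz _ (S.le y h1)
  rw [hvc] at h3
  exact S.path_aux hyz hcov hv0 hv h1 h2 h3 fun h => Or.inl (hc h)

theorem path {x y z w : X} (hxy : E x y) (hyz : E y z) (hzw : E z w)
    (hcov : ∀ p, p = x ∨ p = y ∨ p = z ∨ p = w) :
    finrank ℂ M ≤ 2 ∧ ∀ r, L r = ⊥ → finrank ℂ M ≤ 1 := by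
  have hcov' : ∀ p, p = w ∨ p = z ∨ p = y ∨ p = x := fun p => by
    have := hcov p
    tauto
  by_cases hxz : E x z
  · refine S.path_fwd hxy hyz hzw hcov ?_ fun _ => hxz
    intro hz
    exact S.not_both hxy (S.eq_top (S.symm _ _ hxz) hz) (S.eq_top (S.symm _ _ hyz) hz)
  · by_cases hy : L y = ⊥
    · have hz : L z = M := S.eq_top hyz hy
      refine S.path_fwd hxy hyz hzw hcov (by rw [hz]; exact S.ne) fun hyw => ?_
      exfalso
      exact S.not_both hzw hz (S.eq_top hyw hy)
    · exact S.path_fwd (S.symm _ _ hzw) (S.symm _ _ hyz) (S.symm _ _ hxy) hcov' hy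
        fun h => absurd (S.symm _ _ h) hxz

/-- The matching case. -/
theorem matching {p q p' q' : X} (h : E p q) (h' : E p' q')
    (hall : ∀ a b, E a b → (a = p ∧ b = q) ∨ (a = q ∧ b = p) ∨ (a = p' ∧ b = q') ∨
        (a = q' ∧ b = p')) :
    finrank ℂ M ≤ 2 ∧ ∀ r s, E r s → L r = ⊥ → finrank ℂ M ≤ 1 := by
  have hPM : ∀ a b, E a b → ∀ u ∈ M, P a b u ∈ M := fun a b hab u hu =>
    S.le b (S.mem a b hab u hu)
  have hTM : ∀ a b, E a b → ∀ u ∈ M, rf (P a b) u ∈ M := by
    intro a b hab u hu
    rw [rf_apply]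
    exact M.sub_mem (M.smul_mem _ (hPM a b hab u hu)) hu
  have hTT : ∀ a b, E a b → ∀ u ∈ M, rf (P a b) (rf (P a b) u) = u := by
    intro a b hab u hu
    have e1 := S.fix a b hab _ (S.mem a b hab u hu)
    simp only [rf_apply, map_sub, map_smul, e1, smul_sub]
    module
  obtain ⟨v, hv, hv0, c, hvc⟩ := exists_eigv ((rf (P p q)).comp
    (rf (P p' q'))) M (fun u hu => by
    rw [LinearMap.comp_apply]
    exact hTM p q h _ (hTM p' q' h' u hu)) S.ne
  rw [LinearMap.comp_apply] at hvc
  obtain ⟨v', hv'⟩ : ∃ v', v' = rf (P p' q') v := ⟨_, rfl⟩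
  rw [← hv'] at hvc
  have hvM' : v' ∈ M := by
    rw [hv']
    exact hTM p' q' h' v hv
  have hvv : rf (P p' q') v' = v := by
    rw [hv']
    exact hTT p' q' h' v hv
  have hc : c ≠ 0 := by
    rintro rfl
    have e1 := hTT p q h v' hvM'
    rw [hvc, zero_smul, map_zero] at e1
    rw [← e1, map_zero] at hvv
    exact hv0 hvv.symm
  have hvc' : rf (P p q) v = c⁻¹ • v' := by
    have e1 := hTT p q h v' hvM'
    rw [hvc, map_smul] at e1
    rw [eq_inv_smul_iff₀ hc, e1]
  have hvN : v ∈ Submodule.span ℂ {v, v'} := Submodule.subset_span (by simp)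
  have hvN' : v' ∈ Submodule.span ℂ {v, v'} := Submodule.subset_span (by simp)
  have hP : ∀ (a b : X) (u : V), P a b u =
      (2 : ℂ)⁻¹ • (u + rf (P a b) u) := by
    intro a b u
    rw [rf_apply]
    module
  have hN : Submodule.span ℂ {v, v'} = M := by
    have hle : Submodule.span ℂ {v, v'} ≤ M := by
      rw [Submodule.span_le]
      rintro u (rfl | hu)
      · exact hv
      · rw [Set.mem_singleton_iff.1 hu]
        exact hvM'
    refine (S.min _ hle ?_).resolve_left ?_
    · have key : ∀ p q, E p q → (∀ u ∈ Submodule.span ℂ {v, v'},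
          P p q u ∈ Submodule.span ℂ {v, v'}) → ∀ u ∈ Submodule.span ℂ {v, v'},
          P q p u ∈ Submodule.span ℂ {v, v'} := by
        intro p q hpq hst u hu
        have e1 : P q p u = u - P p q u := by
          have e2 := S.sub p q hpq u (hle hu)
          have e3 := S.mem p q hpq u (hle hu)
          calc P q p u = P q p ((u - P p q u) + P p q u) := by rw [sub_add_cancel]
          _ = u - P p q u := by
            rw [map_add, S.fix q p (S.symm _ _ hpq) _ e2, S.ker q p (S.symm _ _ hpq) _ e3,
              add_zero]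
        rw [e1]
        exact Submodule.sub_mem _ hu (hst u hu)
      have c1 : ∀ u ∈ Submodule.span ℂ {v, v'}, P p q u ∈ Submodule.span ℂ {v, v'} := by
        refine stab_pair ?_ ?_
        · rw [hP, hvc']
          exact Submodule.smul_mem _ _ (Submodule.add_mem _ hvN (Submodule.smul_mem _ _ hvN'))
        · rw [hP, hvc]
          exact Submodule.smul_mem _ _ (Submodule.add_mem _ hvN' (Submodule.smul_mem _ _ hvN))
      have c2 : ∀ u ∈ Submodule.span ℂ {v, v'}, P p' q' u ∈ Submodule.span ℂ {v, v'} := by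
        refine stab_pair ?_ ?_
        · rw [hP, ← hv']
          exact Submodule.smul_mem _ _ (Submodule.add_mem _ hvN hvN')
        · rw [hP, hvv]
          exact Submodule.smul_mem _ _ (Submodule.add_mem _ hvN' hvN)
      intro a b hab
      rcases hall a b hab with ⟨rfl, rfl⟩ | ⟨rfl, rfl⟩ | ⟨rfl, rfl⟩ | ⟨rfl, rfl⟩
      · exact c1
      · exact key _ _ h c1
      · exact c2
      · exact key _ _ h' c2
    · intro h
      apply hv0
      rw [h] at hvN
      exact (Submodule.mem_bot ℂ).1 hvN
  have hzero : ∀ a b, E a b → L b = ⊥ → ∀ u ∈ M, P a b u = 0 := by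
    intro a b hab h0 u hu
    have e1 := S.mem a b hab u hu
    rwa [h0, Submodule.mem_bot] at e1
  have hone : ∀ a b, E a b → L a = ⊥ → ∀ u ∈ M, P a b u = u := by
    intro a b hab h0 u hu
    have e1 := S.sub a b hab u hu
    rw [h0, Submodule.mem_bot, sub_eq_zero] at e1
    exact e1.symm
  refine ⟨?_, fun r s hrs hr => ?_⟩
  · rw [← hN]
    exact finrank_pair_le v v'
  · rw [← hN]
    apply finrank_single_le
    have hvs := Submodule.mem_span_singleton_self (R := ℂ) v
    have d1 : L p = ⊥ → v' ∈ Submodule.span ℂ {v} := by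
      intro h0
      rw [rf_apply, hone p q h h0 _ hvM']
        at hvc
      have e1 : v' = c • v := by
        rw [← hvc]
        module
      rw [e1]
      exact Submodule.smul_mem _ _ hvs
    have d2 : L q = ⊥ → v' ∈ Submodule.span ℂ {v} := by
      intro h0
      rw [rf_apply, hzero p q h h0 _ hvM']
        at hvc
      have e1 : v' = (-c) • v := by
        rw [neg_smul, ← hvc]
        module
      rw [e1]
      exact Submodule.smul_mem _ _ hvs
    have d3 : L p' = ⊥ → v' ∈ Submodule.span ℂ {v} := by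
      intro h0
      rw [rf_apply, hone p' q' h' h0 _ hv]
        at hv'
      have e1 : v' = v := by
        rw [hv']
        module
      rw [e1]
      exact hvs
    have d4 : L q' = ⊥ → v' ∈ Submodule.span ℂ {v} := by
      intro h0
      rw [rf_apply, hzero p' q' h' h0 _ hv]
        at hv'
      have e1 : v' = (-1 : ℂ) • v := by
        rw [hv']
        module
      rw [e1]
      exact Submodule.smul_mem _ _ hvs
    rcases hall r s hrs with ⟨rfl, rfl⟩ | ⟨rfl, rfl⟩ | ⟨rfl, rfl⟩ | ⟨rfl, rfl⟩
    · exact d1 hr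
    · exact d2 hr
    · exact d3 hr
    · exact d4 hr

end Sys

end Pool.Agent.N994.PF
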