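import Mathlib
import Pool.Agent.N994.PF.Eig
import Pool.Agent.N994.PF.Comb
import Pool.Agent.N994.PF.Four

/-!
# The irreducible constituents have dimension at most two
-/

set_option linter.unusedSectionVars false

namespace Pool.Agent.N994.PF

open Matrix Module Pool.Agent.W437.HC Pool.Agent.Y4 Pool.Agent.Y4.G Pool.Agent.Y4.K
  Pool.Agent.W548.Odd

open Pool.Agent.Y4.H (LZ Ct D_mem_LZ Dσ_mem_LZ)

variable {g : ℕ} {Z : Matrix (Fin g) (Fin g) ℂ} {k : IntermediateField ℚ ℂ}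

/-- The constituent. -/
def MM (φ : Pr Z) : Submodule ℂ (Fin g ⊕ Fin g → ℂ) where
  carrier := {u | φ.e *ᵥ u = u}
  zero_mem' := mulVec_zero _
  add_mem' := fun {x y} hx hy => by
    change φ.e *ᵥ (x + y) = x + y
    rw [mulVec_add, hx, hy]
  smul_mem' := fun c x hx => by
    change φ.e *ᵥ (c • x) = c • x
    rw [mulVec_smul, hx]

theorem mem_MM {φ : Pr Z} {u : Fin g ⊕ Fin g → ℂ} : u ∈ MM φ ↔ φ.e *ᵥ u = u := Iff.rfl

/-- The part of the constituent in a conjugate Lagrangian. -/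
def LL (hZ : ∀ i j, Z i j ∈ k) (φ : Pr Z) (p : k →+* ℂ) : Submodule ℂ (Fin g ⊕ Fin g → ℂ) where
  carrier := {u | φ.e *ᵥ u = u ∧ InL (Zk k hZ) p u}
  zero_mem' := ⟨mulVec_zero _, 0, by
    funext i
    rcases i with i | i <;> simp [vecL]⟩
  add_mem' := by
    rintro x y ⟨hx, b, rfl⟩ ⟨hy, b', rfl⟩
    refine ⟨by rw [mulVec_add, hx, hy], b + b', ?_⟩
    funext i
    rcases i with i | i
    · simp [vecL, mulVec_add]
      ring
    · simp [vecL]
  smul_mem' := by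
    rintro c x ⟨hx, b, rfl⟩
    refine ⟨by rw [mulVec_smul, hx], c • b, ?_⟩
    funext i
    rcases i with i | i
    · simp [vecL, mulVec_smul]
    · simp [vecL]

theorem mem_LL {hZ : ∀ i j, Z i j ∈ k} {φ : Pr Z} {p : k →+* ℂ} {u : Fin g ⊕ Fin g → ℂ} :
    u ∈ LL hZ φ p ↔ φ.e *ᵥ u = u ∧ InL (Zk k hZ) p u := Iff.rfl

open Classical in
/-- The projectors. -/
noncomputable def PP (Z : Matrix (Fin g) (Fin g) ℂ) (p q : k →+* ℂ) :
    (Fin g ⊕ Fin g → ℂ) →ₗ[ℂ] (Fin g ⊕ Fin g → ℂ) :=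
  if h : Ed k p q then
    mulVecLin ((2 : ℂ)⁻¹ • (1 + (DZ Z).map ((Classical.choose h : ℂ ≃+* ℂ) : ℂ →+* ℂ)))
  else 0

theorem PP_eq {p q : k →+* ℂ} (h : Ed k p q) : ∃ σ : ℂ ≃+* ℂ, rs k σ = p ∧
    rs k (conjEq.trans σ) = q ∧
    ∀ u, PP Z p q u = (2 : ℂ)⁻¹ • (u + (DZ Z).map (σ : ℂ →+* ℂ) *ᵥ u) := by
  refine ⟨Classical.choose h, (Classical.choose_spec h).1, (Classical.choose_spec h).2, ?_⟩
  intro u
  unfold PP
  rw [dif_pos h, mulVecLin_apply, smul_mulVec, add_mulVec, one_mulVec]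

theorem DD (M : Pol Z) (σ : ℂ ≃+* ℂ) (u : Fin g ⊕ Fin g → ℂ) :
    (DZ Z).map (σ : ℂ →+* ℂ) *ᵥ ((DZ Z).map (σ : ℂ →+* ℂ) *ᵥ u) = u := by
  rw [mulVec_mulVec, M.Dσ_sq, one_mulVec]

theorem D_MM (φ : Pr Z) (σ : ℂ ≃+* ℂ) {u : Fin g ⊕ Fin g → ℂ} (hu : φ.e *ᵥ u = u) :
    φ.e *ᵥ ((DZ Z).map (σ : ℂ →+* ℂ) *ᵥ u) = (DZ Z).map (σ : ℂ →+* ℂ) *ᵥ u := by
  rw [mulVec_mulVec, ← comm_LZ φ _ (Dσ_mem_LZ σ), ← mulVec_mulVec, hu]

/-- A subspace stable under the conjugates of the Hodge operator is stable under the Lie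
algebra. -/
theorem stab_LZ {N : Submodule ℂ (Fin g ⊕ Fin g → ℂ)}
    (h : ∀ σ : ℂ ≃+* ℂ, ∀ u ∈ N, (DZ Z).map (σ : ℂ →+* ℂ) *ᵥ u ∈ N) :
    ∀ X ∈ LZ Z, ∀ u ∈ N, X *ᵥ u ∈ N := by
  let C : Submodule ℂ (Matrix (Fin g ⊕ Fin g) (Fin g ⊕ Fin g) ℂ) :=
    { carrier := {X | ∀ u ∈ N, X *ᵥ u ∈ N}
      zero_mem' := fun u _ => by
        rw [zero_mulVec]
        exact N.zero_mem
      add_mem' := fun {X Y} hX hY u hu => by
        rw [add_mulVec]
        exact N.add_mem (hX u hu) (hY u hu)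
      smul_mem' := fun c X hX u hu => by
        rw [smul_mulVec]
        exact N.smul_mem c (hX u hu) }
  have hC : LZ Z ≤ C := by
    refine LA_le_of_conj ?_ ?_
    · rintro _ ⟨Z', hZ', rfl⟩ σ
      rw [Set.mem_singleton_iff.1 hZ']
      exact h σ
    · intro X hX Y hY u hu
      rw [sub_mulVec, ← mulVec_mulVec, ← mulVec_mulVec]
      exact N.sub_mem (hX _ (hY u hu)) (hY _ (hX u hu))
  exact fun X hX => hC hX

theorem Ed_irr (M : Pol Z) (hZ : ∀ i j, Z i j ∈ k) (φ : Pr Z) (p : k →+* ℂ) : ¬ Ed k p p := by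
  rintro ⟨σ, h1, h2⟩
  have h0 : ∀ u : Fin g ⊕ Fin g → ℂ, (DZ Z).map (σ : ℂ →+* ℂ) *ᵥ u = u → u = 0 := by
    intro u hu
    have e1 := (eig_pos M hZ σ u).1 hu
    rw [h2, ← h1] at e1
    have e2 := (eig_neg M hZ σ u).2 e1
    rw [hu] at e2
    have e3 : (2 : ℂ) • u = 0 := by
      rw [two_smul]
      nth_rewrite 1 [e2]
      exact neg_add_cancel _
    exact (smul_eq_zero.1 e3).resolve_left two_ne_zero
  have h0' : ∀ u : Fin g ⊕ Fin g → ℂ, (DZ Z).map (σ : ℂ →+* ℂ) *ᵥ u = -u → u = 0 := by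
    intro u hu
    have e1 := (eig_neg M hZ σ u).1 hu
    rw [h1, ← h2] at e1
    exact h0 u ((eig_pos M hZ σ u).2 e1)
  apply φ.ne
  apply Matrix.toLin'.injective
  rw [map_zero]
  ext1 i
  have hall : ∀ u : Fin g ⊕ Fin g → ℂ, u = 0 := by
    intro u
    have e1 := h0 (u + (DZ Z).map (σ : ℂ →+* ℂ) *ᵥ u) (by rw [mulVec_add, DD M, add_comm])
    have e2 := h0' (u - (DZ Z).map (σ : ℂ →+* ℂ) *ᵥ u) (by rw [mulVec_sub, DD M, neg_sub])
    have e3 : (2 : ℂ) • u = 0 := by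
      rw [two_smul]
      have e4 : u + u = (u + (DZ Z).map (σ : ℂ →+* ℂ) *ᵥ u) +
        (u - (DZ Z).map (σ : ℂ →+* ℂ) *ᵥ u) := by abel
      rw [e4, e1, e2, add_zero]
    exact (smul_eq_zero.1 e3).resolve_left two_ne_zero
  apply LinearMap.ext
  intro c
  rw [hall ((toLin' φ.e ∘ₗ LinearMap.single ℂ (fun _ => ℂ) i) c)]
  exact (hall _).symm

theorem sys (M : Pol Z) (hZ : ∀ i j, Z i j ∈ k) (φ : Pr Z) :
    Sys (Ed k) (LL hZ φ) (MM φ) (PP Z) where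
  symm := fun _ _ h => h.symm
  irr := Ed_irr M hZ φ
  le := fun p u hu => hu.1
  ne := by
    intro h
    apply φ.ne
    apply Matrix.toLin'.injective
    rw [map_zero]
    apply LinearMap.ext
    intro u
    have h1 : φ.e *ᵥ u ∈ MM φ := by rw [mem_MM, mulVec_mulVec, φ.idem]
    rw [h, Submodule.mem_bot] at h1
    rw [toLin'_apply, h1, LinearMap.zero_apply]
  mem := by
    intro p q h v hv
    obtain ⟨σ, h1, h2, h3⟩ := PP_eq (Z := Z) h
    rw [h3, mem_LL]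
    refine ⟨?_, ?_⟩
    · rw [mulVec_smul, mulVec_add, D_MM φ σ hv, mem_MM.1 hv]
    · rw [← h2, ← eig_pos M, mulVec_smul, mulVec_add, DD M, add_comm]
  sub := by
    intro p q h v hv
    obtain ⟨σ, h1, h2, h3⟩ := PP_eq (Z := Z) h
    rw [h3, mem_LL]
    refine ⟨?_, ?_⟩
    · rw [mulVec_sub, mulVec_smul, mulVec_add, D_MM φ σ hv, mem_MM.1 hv]
    · rw [← h1, ← eig_neg M, mulVec_sub, mulVec_smul, mulVec_add, DD M]
      module
  fix := by
    intro p q h v hv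
    obtain ⟨σ, h1, h2, h3⟩ := PP_eq (Z := Z) h
    have e1 := hv.2
    rw [← h2, ← eig_pos M] at e1
    rw [h3, e1]
    module
  ker := by
    intro p q h v hv
    obtain ⟨σ, h1, h2, h3⟩ := PP_eq (Z := Z) h
    have e1 := hv.2
    rw [← h1, ← eig_neg M] at e1
    rw [h3, e1, add_neg_cancel, smul_zero]
  min := by
    intro N hN hst
    obtain ⟨S, Si, H, -⟩ := M.herm
    rcases Pol.irr_place H φ N (fun u hu => hN hu) (stab_LZ (by
      intro σ u hu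
      have hE : Ed k (rs k σ) (rs k (conjEq.trans σ)) := ⟨σ, rfl, rfl⟩
      obtain ⟨σ', h1, h2, h3⟩ := PP_eq (Z := Z) hE
      have e0 := hst _ _ hE u hu
      rw [h3] at e0
      have e1 : (DZ Z).map (σ' : ℂ →+* ℂ) *ᵥ u ∈ N := by
        have e2 : (DZ Z).map (σ' : ℂ →+* ℂ) *ᵥ u =
            (2 : ℂ) • ((2 : ℂ)⁻¹ • (u + (DZ Z).map (σ' : ℂ →+* ℂ) *ᵥ u)) - u := by module
        rw [e2]
        exact N.sub_mem (N.smul_mem _ e0) hu
      -- the two conjugates agree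
      have e3 : (DZ Z).map (σ : ℂ →+* ℂ) *ᵥ u = (DZ Z).map (σ' : ℂ →+* ℂ) *ᵥ u := by
        obtain ⟨a, ha⟩ : ∃ a, a = (2 : ℂ)⁻¹ • (u - (DZ Z).map (σ' : ℂ →+* ℂ) *ᵥ u) := ⟨_, rfl⟩
        obtain ⟨b, hb⟩ : ∃ b, b = (2 : ℂ)⁻¹ • (u + (DZ Z).map (σ' : ℂ →+* ℂ) *ᵥ u) := ⟨_, rfl⟩
        have hab : u = a + b := by
          rw [ha, hb]
          module
        have ha' : (DZ Z).map (σ' : ℂ →+* ℂ) *ᵥ a = -a := by
          rw [ha, mulVec_smul, mulVec_sub, DD M]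
          module
        have hb' : (DZ Z).map (σ' : ℂ →+* ℂ) *ᵥ b = b := by
          rw [hb, mulVec_smul, mulVec_add, DD M, add_comm]
        have ha'' : (DZ Z).map (σ : ℂ →+* ℂ) *ᵥ a = -a := by
          rw [eig_neg M hZ, ← h1, ← eig_neg M, ha']
        have hb'' : (DZ Z).map (σ : ℂ →+* ℂ) *ᵥ b = b := by
          rw [eig_pos M hZ, ← h2, ← eig_pos M, hb']
        rw [hab, mulVec_add, mulVec_add, ha', hb', ha'', hb'']
      rw [e3]
      exact e1)) with h | h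
    · exact Or.inl h
    · exact Or.inr (le_antisymm hN fun u hu => h u hu)

theorem finrank_MM (M : Pol Z) (φ : Pr Z) : finrank ℂ (MM φ) = mu φ + mu (M.bar φ) := by
  have h1 : finrank ℂ (LinearMap.range (mulVecLin φ.e)) = mu φ + mu (M.bar φ) := by
    have h2 := M.trace_e φ
    rw [trace_idemM φ.idem] at h2
    exact_mod_cast h2
  have h2 : MM φ = LinearMap.range (mulVecLin φ.e) := by
    ext u
    constructor
    · intro hu
      exact ⟨u, hu⟩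
    · rintro ⟨x, rfl⟩
      rw [mem_MM, mulVecLin_apply, mulVec_mulVec, φ.idem]
  rw [h2, h1]

theorem card_emb [FiniteDimensional ℚ k] : ∃ _ : Fintype (k →+* ℂ),
    Fintype.card (k →+* ℂ) = finrank ℚ k := by
  have : NumberField k := ⟨⟩
  exact ⟨inferInstance, NumberField.Embeddings.card k ℂ⟩

/-- **Dimension at most two.** -/
theorem dims [FiniteDimensional ℚ k] (hk : finrank ℚ k ≤ 4) (M : Pol Z)
    (hZ : ∀ i j, Z i j ∈ k) (φ : Pr Z) : mu φ + mu (M.bar φ) ≤ 2 ∧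
      ∀ r s, Ed k r s → LL hZ φ r = ⊥ → mu φ + mu (M.bar φ) ≤ 1 := by
  classical
  have : NumberField k := ⟨⟩
  obtain ⟨_, hcard⟩ := card_emb (k := k)
  rw [← hcard] at hk
  rw [← finrank_MM]
  have S := sys M hZ φ
  rcases comb hk (Ed k) (fun _ _ h => h.symm) S.irr (by
    intro p
    obtain ⟨σ, hσ⟩ := exists_aut_emb (algebraMap k ℂ) p
    exact ⟨rs k (conjEq.trans σ), σ, hσ, rfl⟩) (by
    intro p p'
    obtain ⟨ρ, hρ⟩ := exists_aut_emb p p'
    refine ⟨fun q => (ρ : ℂ →+* ℂ).comp q, ?_, hρ, fun a b h => h.comp ρ⟩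
    intro a b hab
    ext x
    have h1 := congrArg (fun t : k →+* ℂ => t x) hab
    exact ρ.injective h1) with ⟨x, y, z, w, h1, h2, h3, h4⟩ | ⟨p, q, p', q', h1, h2, h3⟩ | h
  · have h5 := S.path h1 h2 h3 h4
    exact ⟨h5.1, fun r s _ => h5.2 r⟩
  · exact S.matching h1 h2 h3
  · exact (h.false (algebraMap k ℂ)).elim

/-- **The two-dimensional constituents have multiplicities one.** -/
theorem mu_one [FiniteDimensional ℚ k] (hk : finrank ℚ k ≤ 4) (M : Pol Z)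
    (hZ : ∀ i j, Z i j ∈ k) (φ : Pr Z) : mu φ + mu (M.bar φ) = 1 ∨
      (mu φ = 1 ∧ mu (M.bar φ) = 1) := by
  obtain ⟨h1, h2⟩ := dims hk M hZ φ
  have h3 := M.mu_pos φ
  by_cases h4 : mu φ + mu (M.bar φ) = 1
  · exact Or.inl h4
  right
  have hE : Ed k (rs k (RingEquiv.refl ℂ)) (rs k (conjEq.trans (RingEquiv.refl ℂ))) :=
    ⟨RingEquiv.refl ℂ, rfl, rfl⟩
  have hD : (DZ Z).map ((RingEquiv.refl ℂ : ℂ ≃+* ℂ) : ℂ →+* ℂ) = DZ Z := by
    ext i j
    rfl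
  have hp : mu φ ≠ 0 := by
    intro h0
    apply h4
    have h5 := h2 _ _ hE.symm (by
      rw [Submodule.eq_bot_iff]
      rintro u ⟨hu1, hu2⟩
      have e1 := (eig_pos M hZ (RingEquiv.refl ℂ) u).2 hu2
      rw [hD] at e1
      unfold mu at h0
      rw [Submodule.finrank_eq_zero, LinearMap.range_eq_bot] at h0
      have e2 := LinearMap.congr_fun h0 u
      rw [mulVecLin_apply, Y4.K.pr, smul_mulVec, ← mulVec_mulVec, hu1, add_mulVec, one_mulVec, e1,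
        LinearMap.zero_apply] at e2
      have e3 : u = (2 : ℂ)⁻¹ • (u + u) := by module
      rw [e3, e2])
    omega
  have hq : mu (M.bar φ) ≠ 0 := by
    intro h0
    apply h4
    have h5 := h2 _ _ hE (by
      rw [Submodule.eq_bot_iff]
      rintro u ⟨hu1, hu2⟩
      have e1 := (eig_neg M hZ (RingEquiv.refl ℂ) u).2 hu2
      rw [hD] at e1
      have e4 := M.trace_qr φ
      rw [h0, Nat.cast_zero, trace_idemM (M.qr_idem φ)] at e4
      have e5 : finrank ℂ (LinearMap.range (mulVecLin (qr φ))) = 0 := by exact_mod_cast e4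
      rw [Submodule.finrank_eq_zero, LinearMap.range_eq_bot] at e5
      have e2 := LinearMap.congr_fun e5 u
      rw [mulVecLin_apply, Y4.K.qr, smul_mulVec, ← mulVec_mulVec, hu1, sub_mulVec, one_mulVec, e1,
        LinearMap.zero_apply] at e2
      have e3 : u = (2 : ℂ)⁻¹ • (u - -u) := by module
      rw [e3, e2])
    omega
  omega

end Pool.Agent.N994.PF
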